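import Pool.Agent.N784.CZ.G.Stm

/-!
# Part G3 of project CZ: the product over all Hecke characters of a given type at one ideal
(helper717; statement of helper784)
-/

set_option autoImplicit false

open NumberField

namespace Pool.Agent.N717.CZ

open Complex
open Pool.Agent.Y767 (Mq Cls cls cls_pi exists_lam finite_dual card_dual)
open Pool.Agent.N784.AD (pi1 D1 cls_card_le exists_rep)
open Pool.Agent.N784.HC (Dn Dn_eq)
open Pool.Agent.N784.CZ

/-- characters trivial at `c` -/
lemma card_ker (G : Type) [CommGroup G] [Finite G] (c : G) :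
    Nat.card {lam : G →* ℂˣ // lam c = 1} = Nat.card G / orderOf c := by
  have e : {lam : G →* ℂˣ // lam c = 1} ≃ (G ⧸ Subgroup.zpowers c →* ℂˣ) :=
    { toFun := fun l => QuotientGroup.lift (Subgroup.zpowers c) l.1 (by
        intro x hx
        obtain ⟨k, rfl⟩ := Subgroup.mem_zpowers_iff.mp hx
        change l.1 (c ^ k) = 1
        rw [map_zpow, l.2, one_zpow])
      invFun := fun m => ⟨m.comp (QuotientGroup.mk' _), by
        change m (QuotientGroup.mk' _ c) = 1
        have : QuotientGroup.mk' (Subgroup.zpowers c) c = 1 := by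
          rw [QuotientGroup.mk'_apply, QuotientGroup.eq_one_iff]
          exact Subgroup.mem_zpowers c
        rw [this, map_one]⟩
      left_inv := by
        intro l
        apply Subtype.ext
        ext x
        rfl
      right_inv := by
        intro m
        ext x
        rfl }
  rw [Nat.card_congr e, card_dual]
  have h := Subgroup.card_eq_card_quotient_mul_card_subgroup (Subgroup.zpowers c)
  rw [Nat.card_zpowers] at h
  rw [h, Nat.mul_div_cancel _ (orderOf_pos c)]

theorem prod_dual (G : Type) [CommGroup G] [Finite G] (c : G) (W : ℂ) :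
    ∏ᶠ lam : G →* ℂˣ, (1 - ((lam c : ℂˣ) : ℂ) * W) =
      (1 - W ^ orderOf c) ^ (Nat.card G / orderOf c) := by
  classical
  have hfin := finite_dual G
  have : Fintype (G →* ℂˣ) := Fintype.ofFinite _
  rw [finprod_eq_prod_of_fintype]
  have hf := orderOf_pos c
  obtain ⟨ζ, hζ⟩ : ∃ ζ : ℂ, IsPrimitiveRoot ζ (orderOf c) := ⟨_, Complex.isPrimitiveRoot_exp _ hf.ne'⟩
  set f := orderOf c with hfdef
  -- fibres
  have hfib : ∀ l₀ : G →* ℂˣ, (Finset.univ.filter fun l : G →* ℂˣ =>
      ((l c : ℂˣ) : ℂ) = ((l₀ c : ℂˣ) : ℂ)).card = Nat.card G / f := by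
    intro l₀
    rw [← card_ker, Nat.subtype_card (Finset.univ.filter fun l : G →* ℂˣ => l c = 1) (by simp)]
    refine Finset.card_bij (fun l _ => l * l₀⁻¹) ?_ ?_ ?_
    · intro l hl
      rw [Finset.mem_filter] at hl ⊢
      refine ⟨Finset.mem_univ _, ?_⟩
      have : l c = l₀ c := Units.ext hl.2
      rw [MonoidHom.mul_apply, MonoidHom.inv_apply, this, mul_inv_cancel]
    · intro l _ l' _ h
      exact mul_right_cancel h
    · intro m hm
      rw [Finset.mem_filter] at hm
      refine ⟨m * l₀, ?_, ?_⟩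
      · rw [Finset.mem_filter]
        refine ⟨Finset.mem_univ _, ?_⟩
        rw [MonoidHom.mul_apply, hm.2, one_mul]
      · refine MonoidHom.ext fun x => ?_
        change m x * l₀ x * (l₀ x)⁻¹ = m x
        rw [mul_inv_cancel_right]
  have hcomp := Finset.prod_comp (s := (Finset.univ : Finset (G →* ℂˣ)))
    (fun z : ℂ => 1 - z * W) (fun l : G →* ℂˣ => ((l c : ℂˣ) : ℂ))
  have hsub : (Finset.univ.image fun l : G →* ℂˣ => ((l c : ℂˣ) : ℂ)) ⊆
      Polynomial.nthRootsFinset f (1 : ℂ) := by
    intro z hz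
    rw [Finset.mem_image] at hz
    obtain ⟨l, -, rfl⟩ := hz
    rw [Polynomial.mem_nthRootsFinset hf, ← Units.val_pow_eq_pow_val, ← map_pow, hfdef,
      pow_orderOf_eq_one, map_one, Units.val_one]
  have hcard : (Finset.univ.image fun l : G →* ℂˣ => ((l c : ℂˣ) : ℂ)).card * (Nat.card G / f) =
      Nat.card G := by
    have h1 := Finset.card_eq_sum_card_image (fun l : G →* ℂˣ => ((l c : ℂˣ) : ℂ))
      (Finset.univ : Finset (G →* ℂˣ))
    rw [Finset.sum_const_nat (m := Nat.card G / f)] at h1
    · rw [← h1, Finset.card_univ, ← Nat.card_eq_fintype_card, card_dual]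
    · intro z hz
      rw [Finset.mem_image] at hz
      obtain ⟨l, -, rfl⟩ := hz
      exact hfib l
  have hdvd : f ∣ Nat.card G := orderOf_dvd_natCard c
  have hpos : 0 < Nat.card G := Nat.card_pos
  have himg : (Finset.univ.image fun l : G →* ℂˣ => ((l c : ℂˣ) : ℂ)) =
      Polynomial.nthRootsFinset f (1 : ℂ) := by
    apply Finset.eq_of_subset_of_card_le hsub
    rw [hζ.card_nthRootsFinset]
    obtain ⟨k, hk⟩ := hdvd
    rw [hk, Nat.mul_div_cancel_left _ hf] at hcard
    have hk0 : 0 < k := by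
      rcases Nat.eq_zero_or_pos k with h | h
      · rw [h] at hk; omega
      · exact h
    exact (Nat.eq_of_mul_eq_mul_right hk0 hcard).ge
  rw [hcomp, Finset.prod_congr rfl (g := fun z : ℂ => (1 - z * W) ^ (Nat.card G / f))]
  · rw [Finset.prod_pow, himg]
    congr 1
    have := hζ.pow_sub_pow_eq_prod_sub_mul (1 : ℂ) W hf
    rw [one_pow] at this
    exact this.symm
  · intro z hz
    rw [Finset.mem_image] at hz
    obtain ⟨l, -, rfl⟩ := hz
    congr 1
    exact hfib l

theorem t_local : StLocal := by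
  intro M _ _ n 𝔮 hbot htop F₁ h₁ x Y _
  have hfinC := (cls_card_le hbot htop).1
  have hD1 : D1 htop = Set.range
      (fun lam : Cls (pi1 htop) →* ℂˣ => lam.comp (cls (pi1 htop))) := by
    ext F
    constructor
    · intro hF
      obtain ⟨lam, hlam⟩ := exists_lam (pi1 htop) F 1 (fun a => by
        rw [hF a, MonoidHom.one_apply])
      refine ⟨lam, ?_⟩
      ext x
      change ((lam (cls (pi1 htop) x) : ℂˣ) : ℂ) = F x
      rw [hlam x, MonoidHom.one_apply, one_mul]
    · rintro ⟨lam, rfl⟩ x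
      change lam (cls (pi1 htop) (pi1 htop x)) = 1
      rw [cls_pi, map_one]
  have hinj : Function.Injective
      (fun lam : Cls (pi1 htop) →* ℂˣ => lam.comp (cls (pi1 htop)) * F₁) := by
    intro l l' h
    refine MonoidHom.ext fun c => ?_
    obtain ⟨𝔞, rfl⟩ := exists_rep hbot htop c
    have h2 := DFunLike.congr_fun h 𝔞
    change l (cls (pi1 htop) 𝔞) * F₁ 𝔞 = l' (cls (pi1 htop) 𝔞) * F₁ 𝔞 at h2
    exact mul_right_cancel h2
  have hDn : Dn n htop = Set.range
      (fun lam : Cls (pi1 htop) →* ℂˣ => lam.comp (cls (pi1 htop)) * F₁) := by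
    rw [Dn_eq h₁, hD1, ← Set.range_comp]
    rfl
  rw [hDn, finprod_mem_range hinj, ← prod_dual]
  refine finprod_congr fun lam => ?_
  change 1 - ((lam (cls (pi1 htop) x) * F₁ x : ℂˣ) : ℂ) * Y = _
  rw [Units.val_mul, mul_assoc]

end Pool.Agent.N717.CZ
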